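import Pool.Agent.H90.TRM.Pure

/-!
# Truncation of a two-sided label to a degree: the estimate

`trm_pure`: from labels `(G₀, H 0)` of the ball and `(G₁, H N)` of the tube of the level `N` the
pair `G₀ + tyw (G₁ - G₀)`, `H 0 + tyw (H N - H 0)` is a label of all tubes between.
-/

set_option autoImplicit false

namespace Pool.TRM

open Finset MvPolynomial
open Pool.STAT
open Pool.TRC31 (BxE nue zet d1)

/-- Boxes of the side of the point. -/
theorem bx_gs {g : ℕ → ℝ} {Φ : ℕ → PN} {n : ℕ} {s : ℝ} {b : ℕ → ℝ} (h : BxE (gs s g) Φ n b) :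
    ∀ i < n, |b i - eval b (Φ i)| ≤ Real.exp (-s) ^ d1 i * Real.exp (-g i) := by
  intro i hi
  refine (h i hi).trans (le_of_eq ?_)
  show Real.exp (-(g i + s)) = Real.exp (-s) ^ 1 * Real.exp (-g i)
  rw [pow_one, ← Real.exp_add]
  congr 1
  ring

theorem bx_gs' {g : ℕ → ℝ} {Φ : ℕ → PN} {n : ℕ} {s : ℝ} {b : ℕ → ℝ}
    (h : ∀ i < n, |b i - eval b (Φ i)| ≤ Real.exp (-s) ^ d1 i * Real.exp (-g i)) :
    BxE (gs s g) Φ n b := by
  intro i hi
  refine (h i hi).trans (le_of_eq ?_)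
  show Real.exp (-s) ^ 1 * Real.exp (-g i) = Real.exp (-(g i + s))
  rw [pow_one, ← Real.exp_add]
  congr 1
  ring

theorem bx_gt {g : ℕ → ℝ} {Φ : ℕ → PN} {n : ℕ} {s : ℝ} {b : ℕ → ℝ} (h : BxE (gt s g) Φ n b) :
    ∀ i < n, |b i - eval b (Φ i)| ≤ Real.exp (-s) ^ dY i * Real.exp (-g i) := by
  intro i hi
  refine (h i hi).trans (le_of_eq ?_)
  unfold gt dY
  split_ifs with h0
  · rw [pow_zero, one_mul, h0]
  · rw [pow_one, ← Real.exp_add]
    congr 1
    ring

theorem bx_gt' {g : ℕ → ℝ} {Φ : ℕ → PN} {n : ℕ} {s : ℝ} {b : ℕ → ℝ}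
    (h : ∀ i < n, |b i - eval b (Φ i)| ≤ Real.exp (-s) ^ dY i * Real.exp (-g i)) :
    BxE (gt s g) Φ n b := by
  intro i hi
  refine (h i hi).trans (le_of_eq ?_)
  unfold gt dY
  split_ifs with h0
  · rw [pow_zero, one_mul, h0]
  · rw [pow_one, ← Real.exp_add]
    congr 1
    ring

theorem bx_one {g : ℕ → ℝ} {Φ : ℕ → PN} {n : ℕ} {d : ℕ → ℕ} {b : ℕ → ℝ}
    (h : ∀ i < n, |b i - eval b (Φ i)| ≤ (1 : ℝ) ^ d i * Real.exp (-g i)) : BxE g Φ n b := by
  intro i hi
  have h1 := h i hi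
  rwa [one_pow, one_mul] at h1

theorem bx_one' {g : ℕ → ℝ} {Φ : ℕ → PN} {n : ℕ} {d : ℕ → ℕ} {b : ℕ → ℝ} (h : BxE g Φ n b) :
    ∀ i < n, |b i - eval b (Φ i)| ≤ (1 : ℝ) ^ d i * Real.exp (-g i) := by
  intro i hi
  rw [one_pow, one_mul]
  exact h i hi

/-- The telescope. -/
theorem tel_H (H : ℕ → PN) (N : ℕ) : H N - H 0 = ∑ k ∈ range N, (H (k + 1) - H k) :=
  (Finset.sum_range_sub H N).symm

/-- The parts of the telescope on the side of the line: the part of degree `≤ m` on the whole box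
of the ball, the whole sum on the box of the last level. -/
theorem line_part (n K m N : ℕ) : ∃ C : ℝ, 1 ≤ C ∧ ∀ (Φ : ℕ → PN) (g : ℕ → ℝ) (H : ℕ → PN)
    (v P : ℕ → ℝ) (A h Q : ℝ), TriN Φ → (∀ i < n, (Φ i).totalDegree ≤ K) →
    (∀ k ≤ N, (H k).vars ⊆ range n) → (∀ k ≤ N, (H k).totalDegree ≤ K) → 0 ≤ h →
    (∀ k ≤ N, 0 ≤ v k ∧ v k ≤ v N) → (∀ k < N, v (k + 1) ≤ v k + h) →
    (∀ k < N, Q + m * v k ≤ P k) →
    (∀ k < N, ∀ b, BxE (gt (v (k + 1)) g) Φ n b →
      |eval b (H (k + 1)) - eval b (H k)| ≤ Real.exp (A - P k)) →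
    nrm dY 1 (trw dY (m + 1) (bind₁ (nue g Φ) (H N - H 0))) ≤ C * Real.exp (A + m * h - Q) ∧
    nrm dY (Real.exp (-v N)) (bind₁ (nue g Φ) (H N - H 0)) ≤ C * Real.exp (A - Q) := by
  obtain ⟨C₁, hC₁, hn⟩ := nrm_le n K K
  refine ⟨(N + 1) * C₁, ?_, ?_⟩
  · have : (0 : ℝ) ≤ N := Nat.cast_nonneg N
    nlinarith
  intro Φ g H v P A h Q hΦ hK hv hd hh hvk hvs hP hT
  have hN0 : (0 : ℝ) ≤ N := Nat.cast_nonneg N
  have hm0 : (0 : ℝ) ≤ m := Nat.cast_nonneg m
  have hC0 : 0 < C₁ := by linarith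
  -- one step
  have key : ∀ k < N, nrm dY (Real.exp (-v (k + 1))) (bind₁ (nue g Φ) (H (k + 1) - H k)) ≤
      C₁ * Real.exp (A - P k) := by
    intro k hk
    refine hn Φ g dY _ _ _ hΦ hK (Real.exp_pos _) ?_ ?_ fun b hb => ?_
    · exact (vars_sub_subset _).trans (Finset.union_subset (hv (k + 1) hk) (hv k hk.le))
    · exact (totalDegree_sub _ _).trans (max_le (hd (k + 1) hk) (hd k hk.le))
    · rw [map_sub]
      exact hT k hk b (bx_gt' hb)
  constructor
  · rw [tel_H, map_sum, trw_sum']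
    refine (NRM.nrm_sum dY one_pos _ _).trans ?_
    have h1 : ∀ k ∈ range N, nrm dY 1 (trw dY (m + 1) (bind₁ (nue g Φ) (H (k + 1) - H k))) ≤
        C₁ * Real.exp (A + m * h - Q) := by
      intro k hk
      have hk' := mem_range.1 hk
      have h0 := (hvk (k + 1) hk').1
      have h2 := NRM.nrm_trw_scale dY (Real.exp_pos (-v (k + 1))) m
        (bind₁ (nue g Φ) (H (k + 1) - H k)) 1 (by
          rw [Real.exp_le_one_iff]
          linarith)
      have e1 : (1 / Real.exp (-v (k + 1))) ^ m = Real.exp (m * v (k + 1)) := by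
        rw [one_div, ← Real.exp_neg, neg_neg, ← Real.exp_nat_mul]
      rw [e1] at h2
      refine h2.trans ((mul_le_mul_of_nonneg_left (key k hk') (Real.exp_pos _).le).trans ?_)
      rw [mul_left_comm, ← Real.exp_add]
      refine mul_le_mul_of_nonneg_left (Real.exp_le_exp.2 ?_) hC0.le
      have h3 := hP k hk'
      have h4 := mul_le_mul_of_nonneg_left (hvs k hk') hm0
      linarith
    refine (Finset.sum_le_card_nsmul _ _ _ h1).trans ?_
    rw [card_range, nsmul_eq_mul, mul_assoc]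
    refine mul_le_mul_of_nonneg_right (by linarith) (by positivity)
  · rw [tel_H, map_sum]
    refine (NRM.nrm_sum dY (Real.exp_pos _) _ _).trans ?_
    have h1 : ∀ k ∈ range N, nrm dY (Real.exp (-v N)) (bind₁ (nue g Φ) (H (k + 1) - H k)) ≤
        C₁ * Real.exp (A - Q) := by
      intro k hk
      have hk' := mem_range.1 hk
      refine (SYS35.nrm_mono (Real.exp_pos _).le (Real.exp_le_exp.2 (neg_le_neg
        (hvk (k + 1) hk').2))).trans ((key k hk').trans ?_)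
      refine mul_le_mul_of_nonneg_left (Real.exp_le_exp.2 ?_) hC0.le
      have h3 := hP k hk'
      have h4 := mul_nonneg hm0 (hvk k hk'.le).1
      linarith
    refine (Finset.sum_le_card_nsmul _ _ _ h1).trans ?_
    rw [card_range, nsmul_eq_mul, mul_assoc]
    refine mul_le_mul_of_nonneg_right (by linarith) (by positivity)

/-- The constants of the change of charts. -/
theorem zet_ball {n K : ℕ} {C₁ : ℝ}
    (hn : ∀ (Φ : ℕ → PN) (g : ℕ → ℝ) (d : ℕ → ℕ) (ρ : ℝ) (F : PN) (s : ℝ), TriN Φ →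
      (∀ i < n, (Φ i).totalDegree ≤ K) → 0 < ρ → F.vars ⊆ range n → F.totalDegree ≤ K →
      (∀ b : ℕ → ℝ, (∀ i < n, |b i - eval b (Φ i)| ≤ ρ ^ d i * Real.exp (-g i)) →
        |eval b F| ≤ s) → nrm d ρ (bind₁ (nue g Φ) F) ≤ C₁ * s)
    {ΦG ΦH : ℕ → PN} {g c : ℕ → ℝ} {A r : ℝ} (hG : TriN ΦG) (hH : TriN ΦH)
    (dG : ∀ i < n, (ΦG i).totalDegree ≤ K) (dH : ∀ i < n, (ΦH i).totalDegree ≤ K) (hA : 0 ≤ A)
    (hc : ∀ i < n, eval c (ΦG i) = c i)
    (fr : ∀ b, BxE g ΦG n b → ∀ i < n, |eval b (ΦG i) - eval b (ΦH i)| ≤ Real.exp (A - g i)) :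
    (∀ i < n, nrm d1 1 (zet g ΦH (nue g ΦG) i) ≤ (2 + C₁) * Real.exp A) ∧
    (0 ≤ r → (∀ i, 1 ≤ i → i < n → |c i - eval c (ΦH i)| ≤ Real.exp (A - g i - r)) →
      ∀ i < n, nrm d1 (Real.exp (-r)) (zet (gt r g) ΦH (nue g ΦG) i) ≤ (2 + C₁) * Real.exp A) := by
  have hA1 : 1 ≤ Real.exp A := Real.one_le_exp hA
  have hdl : ∀ i < n, nrm d1 1 (bind₁ (nue g ΦG) (ΦG i - ΦH i)) ≤ C₁ * Real.exp (A - g i) := by
    intro i hi
    refine hn ΦG g d1 1 _ _ hG dG one_pos ?_ ?_ fun b hb => ?_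
    · exact (vars_sub_subset _).trans (Finset.union_subset ((hG i).trans (range_mono hi.le))
        ((hH i).trans (range_mono hi.le)))
    · exact (totalDegree_sub _ _).trans (max_le (dG i hi) (dH i hi))
    · rw [map_sub]
      exact fr b (bx_one hb) i hi
  constructor
  · intro i hi
    rw [zet_eq hG]
    refine (NRM.nrm_add d1 one_pos _ _).trans ?_
    have h1 := NRM.nrm_mul d1 one_pos (C (Real.exp (g i - g i))) (X i : PN)
    rw [NRM.nrm_C, NRM.nrm_X, one_pow, mul_one, sub_self, Real.exp_zero, abs_one] at h1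
    have h2 := NRM.nrm_mul d1 one_pos (C (Real.exp (g i)))
      (bind₁ (nue g ΦG) (ΦG i - ΦH i))
    rw [NRM.nrm_C, abs_of_pos (Real.exp_pos _)] at h2
    have h3 := h2.trans (mul_le_mul_of_nonneg_left (hdl i hi) (Real.exp_pos _).le)
    have h4 : Real.exp (g i) * (C₁ * Real.exp (A - g i)) = C₁ * Real.exp A := by
      rw [mul_left_comm, ← Real.exp_add]
      congr 2
      ring
    rw [h4] at h3
    have h5 := add_le_add h1 h3
    rw [sub_self, Real.exp_zero]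
    refine h5.trans ?_
    nlinarith
  · intro hr hown i hi
    have hr1 : Real.exp (-r) ≤ 1 := by
      rw [Real.exp_le_one_iff]
      linarith
    rw [zet_eq hG]
    refine (NRM.nrm_add d1 (Real.exp_pos _) _ _).trans ?_
    have h1 := NRM.nrm_mul d1 (Real.exp_pos (-r)) (C (Real.exp (gt r g i - g i))) (X i : PN)
    rw [NRM.nrm_C, NRM.nrm_X, abs_of_pos (Real.exp_pos _)] at h1
    have h2 := NRM.nrm_mul d1 (Real.exp_pos (-r)) (C (Real.exp (gt r g i)))
      (bind₁ (nue g ΦG) (ΦG i - ΦH i))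
    rw [NRM.nrm_C, abs_of_pos (Real.exp_pos _)] at h2
    have h3 : Real.exp (gt r g i - g i) * Real.exp (-r) ^ d1 i ≤ 1 := by
      show Real.exp (gt r g i - g i) * Real.exp (-r) ^ 1 ≤ 1
      rw [pow_one, ← Real.exp_add, Real.exp_le_one_iff]
      unfold gt
      split_ifs with h0
      · rw [h0]
        linarith
      · linarith
    have h6 : Real.exp (gt r g i) * nrm d1 (Real.exp (-r)) (bind₁ (nue g ΦG) (ΦG i - ΦH i)) ≤
        (1 + C₁) * Real.exp A := by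
      rcases Nat.eq_zero_or_pos i with h0 | h0
      · have e1 := (SYS35.nrm_mono (d := d1) (Real.exp_pos (-r)).le hr1
          (F := bind₁ (nue g ΦG) (ΦG i - ΦH i))).trans (hdl i hi)
        refine (mul_le_mul_of_nonneg_left e1 (Real.exp_pos _).le).trans ?_
        unfold gt
        rw [if_pos h0, mul_left_comm, ← Real.exp_add, h0]
        have e2 : g 0 + (A - g 0) = A := by ring
        rw [e2]
        nlinarith
      · have e0 : |coeff 0 (bind₁ (nue g ΦG) (ΦG i - ΦH i))| ≤ Real.exp (A - g i - r) := by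
          rw [← TRC31.eval_zero_coeff, TRC31.eval_bind', map_sub]
          have e3 : ∀ Ψ : ℕ → PN, TriN Ψ →
              eval (fun j => eval (0 : ℕ → ℝ) (nue g ΦG j)) (Ψ i) = eval c (Ψ i) := fun Ψ hΨ =>
            SYS35.eval_congr (hΨ i) fun j hj => nue_ctr hG hc j (hj.trans hi)
          rw [e3 _ hG, e3 _ hH, hc i hi]
          exact hown i h0 hi
        have e1 := nrm_ctr (Real.exp_pos (-r)) hr1 e0 (hdl i hi)
        refine (mul_le_mul_of_nonneg_left e1 (Real.exp_pos _).le).trans (le_of_eq ?_)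
        unfold gt
        rw [if_neg (by omega), mul_add, ← Real.exp_add, ← mul_assoc, ← Real.exp_add,
          mul_left_comm, ← Real.exp_add]
        have e4 : g i + r + (A - g i - r) = A := by ring
        have e5 : g i + r + -r + (A - g i) = A := by ring
        rw [e4, e5]
        ring
    refine (add_le_add (h1.trans h3) (h2.trans h6)).trans ?_
    nlinarith

/-- **The truncated label.** -/
theorem trm_pure (n K m N : ℕ) : ∃ Cc : ℝ, 1 ≤ Cc ∧ ∀ (ΦG ΦH : ℕ → PN) (g c : ℕ → ℝ)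
    (G₀ G₁ : PN) (H : ℕ → PN) (v P : ℕ → ℝ) (A h p Q y : ℝ), TriN ΦG → TriN ΦH →
    (∀ i < n, (ΦG i).totalDegree ≤ K) → (∀ i < n, (ΦH i).totalDegree ≤ K) →
    G₀.vars ⊆ range n → G₁.vars ⊆ range n → (∀ k ≤ N, (H k).vars ⊆ range n) →
    G₀.totalDegree ≤ K → G₁.totalDegree ≤ K → (∀ k ≤ N, (H k).totalDegree ≤ K) →
    0 ≤ A → 0 ≤ h → 0 ≤ y → (∀ k ≤ N, 0 ≤ v k ∧ v k ≤ v N) → (∀ k < N, v (k + 1) ≤ v k + h) →
    (∀ k < N, Q + m * v k ≤ P k) → (∀ i < n, eval c (ΦG i) = c i) →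
    (∀ b, BxE g ΦG n b → ∀ i < n, |eval b (ΦG i) - eval b (ΦH i)| ≤ Real.exp (A - g i)) →
    (∀ i, 1 ≤ i → i < n → |c i - eval c (ΦH i)| ≤ Real.exp (A - g i - (v N + y))) →
    (∀ b, BxE g ΦG n b → |eval b G₀ - eval b (H 0)| ≤ Real.exp (A - Q)) →
    (∀ b, BxE (gs (v N) g) ΦG n b → |eval b G₁ - eval b (H N)| ≤ Real.exp (A - p)) →
    (∀ k < N, ∀ b, BxE (gt (v (k + 1)) g) ΦH n b →
      |eval b (H (k + 1)) - eval b (H k)| ≤ Real.exp (A - P k)) →
    ∀ s, 0 ≤ s → s ≤ v N → ∀ b, BxE (gs s g) ΦG n b →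
      |eval b (G₀ + tyw d1 m g ΦG (G₁ - G₀)) - eval b (H 0 + tyw dY m g ΦH (H N - H 0))| ≤
        Cc * Real.exp (Cc * (A + h)) * (Real.exp (-Q - (m + 1) * s) +
          Real.exp (-p + m * (v N - s)) + Real.exp (-Q + m * (v N - s) - y)) := by
  classical
  obtain ⟨C₁, hC₁, hn⟩ := nrm_le n K K
  obtain ⟨C₂, hC₂, hlp⟩ := line_part n K m N
  obtain ⟨KE, hKE⟩ : ∃ KE, KE = K * (K + 1) ^ n * (K + 1) := ⟨_, rfl⟩
  obtain ⟨Cq, hCq, K1, hkey⟩ := TRC31.key n K (max K KE)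
  have hC10 : 0 < C₁ := by linarith
  have hC20 : 0 < C₂ := by linarith
  have hCq0 : 0 < Cq := by linarith
  have hm0 : (0 : ℝ) ≤ m := Nat.cast_nonneg m
  have hK10 : (0 : ℝ) ≤ K1 := Nat.cast_nonneg K1
  obtain ⟨B₀, hB₀⟩ : ∃ B₀, B₀ = 2 + C₁ := ⟨_, rfl⟩
  have hB01 : 1 ≤ B₀ := by rw [hB₀]; linarith
  have hBK : 1 ≤ B₀ ^ K1 := one_le_pow₀ hB01
  obtain ⟨Ca, hCa⟩ : ∃ Ca, Ca = Cq * B₀ ^ K1 * C₂ := ⟨_, rfl⟩
  have hCa1 : 1 ≤ Ca := by
    rw [hCa]
    exact one_le_mul_of_one_le_of_one_le (one_le_mul_of_one_le_of_one_le hCq hBK) hC₂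
  refine ⟨2 * C₁ + 2 * Ca + K1 + m + 3, by linarith, ?_⟩
  intro ΦG ΦH g c G₀ G₁ H v P A h p Q y hG hH dG dH vG0 vG1 vHk dG0 dG1 dHk hA hh hy hvk hvs hP
    hc fr own e0 e1 hT s hs hsN b hb
  obtain ⟨k1, k2⟩ := hlp ΦH g H v P A h Q hH dH vHk dHk hh hvk hvs hP hT
  obtain ⟨z1, z2⟩ := zet_ball (r := v N + y) hn hG hH dG dH hA hc fr
  have hvN := (hvk N le_rfl).1
  have z2 := z2 (by linarith) own
  have hB : 1 ≤ (2 + C₁) * Real.exp A := by
    rw [← hB₀]
    exact one_le_mul_of_one_le_of_one_le hB01 (Real.one_le_exp hA)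
  have hBK' : ((2 + C₁) * Real.exp A) ^ K1 = B₀ ^ K1 * Real.exp (K1 * A) := by
    rw [mul_pow, ← Real.exp_nat_mul, hB₀]
  -- the parts
  obtain ⟨W, hW⟩ : ∃ W, W = H N - H 0 := ⟨_, rfl⟩
  obtain ⟨E, hE⟩ : ∃ E, E = tyw dY m g ΦH W := ⟨_, rfl⟩
  have vW : W.vars ⊆ range n := by
    rw [hW]
    exact (vars_sub_subset _).trans (Finset.union_subset (vHk N le_rfl) (vHk 0 (Nat.zero_le N)))
  have dW : W.totalDegree ≤ K := by
    rw [hW]
    exact (totalDegree_sub _ _).trans (max_le (dHk N le_rfl) (dHk 0 (Nat.zero_le N)))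
  have vE : E.vars ⊆ range n := by
    rw [hE]
    exact tyw_vars hH vW
  have dE : E.totalDegree ≤ KE := by
    rw [hE, hKE]
    exact tyw_deg hH vW dH dW
  have hEn : bind₁ (nue g ΦH) E = trw dY (m + 1) (bind₁ (nue g ΦH) W) := by
    rw [hE]
    exact tyw_nue hH dY m W
  have hFn : bind₁ (nue g ΦH) (W - E) = gew dY (m + 1) (bind₁ (nue g ΦH) W) := by
    rw [map_sub, hEn]
    rfl
  rw [← hW] at k1 k2
  -- the values of `E` on the box of the ball
  have hE1 : ∀ b, BxE g ΦH n b → |eval b E| ≤ C₂ * Real.exp (A + m * h - Q) := by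
    intro b hb
    refine (val_le (d := dY) hH vE (ρ := 1) (bx_one' hb)).trans ?_
    rw [hEn]
    exact k1
  -- the values of `W - E` on the thin box
  have hF1 : ∀ b, BxE (gt (v N + y) g) ΦH n b → |eval b (W - E)| ≤
      C₂ * Real.exp (A - Q - (m + 1) * y) := by
    intro b hb
    refine (val_le (d := dY) hH ((vars_sub_subset _).trans (Finset.union_subset vW vE))
      (ρ := Real.exp (-(v N + y))) (bx_gt hb)).trans ?_
    rw [hFn]
    have h1 := NRM.nrm_gew_scale dY (Real.exp_pos (-(v N + y))) (m + 1)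
      (bind₁ (nue g ΦH) W) (Real.exp (-v N)) (Real.exp_le_exp.2 (by linarith))
    refine h1.trans ((mul_le_mul_of_nonneg_left k2 (by positivity)).trans (le_of_eq ?_))
    rw [← Real.exp_sub, ← Real.exp_nat_mul, mul_left_comm, ← Real.exp_add]
    congr 2
    push_cast
    ring
  -- in the natural coordinates of the point
  obtain ⟨r, hr⟩ : ∃ r, r = Real.exp (-s) := ⟨_, rfl⟩
  have hr0 : 0 < r := by rw [hr]; exact Real.exp_pos _
  have hr1 : r ≤ 1 := by
    rw [hr, Real.exp_le_one_iff]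
    linarith
  have n1 : nrm d1 1 (bind₁ (nue g ΦG) E) ≤
      Ca * Real.exp (K1 * A + A + m * h - Q) := by
    refine (hkey g ΦH hH dH E n le_rfl vE (dE.trans (le_max_right _ _)) _ hE1 (nue g ΦG) 1 _
      one_pos hB z1).trans (le_of_eq ?_)
    rw [hBK', hCa, show K1 * A + A + m * h - Q = K1 * A + (A + m * h - Q) by ring, Real.exp_add]
    ring
  have n2 : nrm d1 (Real.exp (-(v N + y))) (bind₁ (nue g ΦG) (W - E)) ≤
      Ca * Real.exp (K1 * A + A - Q - (m + 1) * y) := by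
    refine (hkey (gt (v N + y) g) ΦH hH dH (W - E) n le_rfl
      ((vars_sub_subset _).trans (Finset.union_subset vW vE))
      ((totalDegree_sub _ _).trans (max_le (dW.trans (le_max_left _ _))
        (dE.trans (le_max_right _ _)))) _ hF1 (nue g ΦG) _ _
      (Real.exp_pos _) hB z2).trans (le_of_eq ?_)
    rw [hBK', hCa, show K1 * A + A - Q - (m + 1) * y = K1 * A + (A - Q - (m + 1) * y) by ring,
      Real.exp_add]
    ring
  have n3 : nrm d1 1 (bind₁ (nue g ΦG) (G₀ - H 0)) ≤ C₁ * Real.exp (A - Q) := by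
    refine hn ΦG g d1 1 _ _ hG dG one_pos ?_ ?_ fun b hb => ?_
    · exact (vars_sub_subset _).trans (Finset.union_subset vG0 (vHk 0 (Nat.zero_le N)))
    · exact (totalDegree_sub _ _).trans (max_le dG0 (dHk 0 (Nat.zero_le N)))
    · rw [map_sub]
      exact e0 b (bx_one hb)
  have n4 : nrm d1 (Real.exp (-v N)) (bind₁ (nue g ΦG) (G₁ - H N)) ≤
      C₁ * Real.exp (A - p) := by
    refine hn ΦG g d1 _ _ _ hG dG (Real.exp_pos _) ?_ ?_ fun b hb => ?_
    · exact (vars_sub_subset _).trans (Finset.union_subset vG1 (vHk N le_rfl))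
    · exact (totalDegree_sub _ _).trans (max_le dG1 (dHk N le_rfl))
    · rw [map_sub]
      exact e1 b (bx_gs' hb)
  -- the difference of the two sides
  obtain ⟨X, hX⟩ : ∃ X, X = (G₀ + tyw d1 m g ΦG (G₁ - G₀)) - (H 0 + E) := ⟨_, rfl⟩
  have hXn : bind₁ (nue g ΦG) X = gew d1 (m + 1) (bind₁ (nue g ΦG) (G₀ - H 0)) -
      gew d1 (m + 1) (bind₁ (nue g ΦG) E) +
      (trw d1 (m + 1) (bind₁ (nue g ΦG) (G₁ - H N)) +
        trw d1 (m + 1) (bind₁ (nue g ΦG) (W - E))) := by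
    have t1 : bind₁ (nue g ΦG) (tyw d1 m g ΦG (G₁ - G₀)) =
        trw d1 (m + 1) (bind₁ (nue g ΦG) (G₁ - G₀)) := tyw_nue hG d1 m _
    have t2 : bind₁ (nue g ΦG) (G₁ - G₀) = bind₁ (nue g ΦG) (G₁ - H N) -
        bind₁ (nue g ΦG) (G₀ - H 0) + bind₁ (nue g ΦG) (W - E) + bind₁ (nue g ΦG) E := by
      rw [← map_sub, ← map_add, ← map_add, hW]
      congr 1
      ring
    rw [hX, map_sub, map_add, map_add, t1, t2, trw_add', trw_add', trw_sub']
    unfold gew
    rw [show bind₁ (nue g ΦG) (G₀ - H 0) = bind₁ (nue g ΦG) G₀ - bind₁ (nue g ΦG) (H 0) from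
      map_sub _ _ _]
    ring
  have vX : X.vars ⊆ range n := by
    rw [hX]
    refine (vars_sub_subset _).trans (Finset.union_subset ?_ ?_)
    · exact (vars_add_subset _ _).trans (Finset.union_subset vG0
        (tyw_vars hG ((vars_sub_subset _).trans (Finset.union_subset vG1 vG0))))
    · exact (vars_add_subset _ _).trans (Finset.union_subset (vHk 0 (Nat.zero_le N)) vE)
  have hval : |eval b X| ≤ nrm d1 r (bind₁ (nue g ΦG) X) := by
    rw [hr]
    exact val_le (d := d1) hG vX (bx_gs hb)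
  have hexp1 : Real.exp (-s) ^ (m + 1) = Real.exp (-((m + 1) * s)) := by
    rw [← Real.exp_nat_mul]
    congr 1
    push_cast
    ring
  -- the four estimates
  have a1 : nrm d1 r (gew d1 (m + 1) (bind₁ (nue g ΦG) (G₀ - H 0))) ≤
      C₁ * Real.exp (A - Q - (m + 1) * s) := by
    have h1 := NRM.nrm_gew_scale d1 hr0 (m + 1) (bind₁ (nue g ΦG) (G₀ - H 0)) 1 hr1
    refine h1.trans ((mul_le_mul_of_nonneg_left n3 (by positivity)).trans (le_of_eq ?_))
    rw [div_one, hr, hexp1, mul_left_comm, ← Real.exp_add]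
    congr 2
    ring
  have a2 : nrm d1 r (gew d1 (m + 1) (bind₁ (nue g ΦG) E)) ≤
      Ca * Real.exp (K1 * A + A + m * h - Q - (m + 1) * s) := by
    have h1 := NRM.nrm_gew_scale d1 hr0 (m + 1) (bind₁ (nue g ΦG) E) 1 hr1
    refine h1.trans ((mul_le_mul_of_nonneg_left n1 (by positivity)).trans (le_of_eq ?_))
    rw [div_one, hr, hexp1, mul_left_comm, ← Real.exp_add]
    congr 2
    ring
  have a3 : nrm d1 r (trw d1 (m + 1) (bind₁ (nue g ΦG) (G₁ - H N))) ≤
      C₁ * Real.exp (A - p + m * (v N - s)) := by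
    have h1 := NRM.nrm_trw_scale d1 (Real.exp_pos (-v N)) m (bind₁ (nue g ΦG) (G₁ - H N)) r (by
      rw [hr]
      exact Real.exp_le_exp.2 (by linarith))
    refine h1.trans ((mul_le_mul_of_nonneg_left n4 (by positivity)).trans (le_of_eq ?_))
    rw [hr, ← Real.exp_sub, ← Real.exp_nat_mul, mul_left_comm, ← Real.exp_add]
    congr 2
    ring
  have a4 : nrm d1 r (trw d1 (m + 1) (bind₁ (nue g ΦG) (W - E))) ≤
      Ca * Real.exp (K1 * A + A - Q + m * (v N - s) - y) := by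
    have h1 := NRM.nrm_trw_scale d1 (Real.exp_pos (-(v N + y))) m (bind₁ (nue g ΦG) (W - E)) r
      (by
        rw [hr]
        exact Real.exp_le_exp.2 (by linarith))
    refine h1.trans ((mul_le_mul_of_nonneg_left n2 (by positivity)).trans (le_of_eq ?_))
    rw [hr, ← Real.exp_sub, ← Real.exp_nat_mul, mul_left_comm, ← Real.exp_add]
    congr 2
    ring
  have hfin : |eval b X| ≤ C₁ * Real.exp (A - Q - (m + 1) * s) +
      Ca * Real.exp (K1 * A + A + m * h - Q - (m + 1) * s) +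
      (C₁ * Real.exp (A - p + m * (v N - s)) +
        Ca * Real.exp (K1 * A + A - Q + m * (v N - s) - y)) := by
    refine hval.trans ?_
    rw [hXn]
    refine (NRM.nrm_add d1 hr0 _ _).trans (add_le_add ?_ ((NRM.nrm_add d1 hr0 _ _).trans
      (add_le_add a3 a4)))
    rw [sub_eq_add_neg]
    refine (NRM.nrm_add d1 hr0 _ _).trans (add_le_add a1 ?_)
    rw [NRM.nrm_neg]
    exact a2
  have hXv : eval b X = eval b (G₀ + tyw d1 m g ΦG (G₁ - G₀)) -
      eval b (H 0 + tyw dY m g ΦH (H N - H 0)) := by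
    rw [hX, map_sub, hE, hW]
  rw [← hXv]
  refine hfin.trans ?_
  -- comparison of the constants
  obtain ⟨Cc, hCc⟩ : ∃ Cc, Cc = 2 * C₁ + 2 * Ca + K1 + m + 3 := ⟨_, rfl⟩
  rw [← hCc]
  have hAh : 0 ≤ A + h := by linarith
  have hexp : ∀ x z : ℝ, x ≤ Cc * (A + h) + z → Real.exp x ≤
      Real.exp (Cc * (A + h)) * Real.exp z := by
    intro x z hx
    rw [← Real.exp_add]
    exact Real.exp_le_exp.2 hx
  have hKA : K1 * A + A + m * h ≤ Cc * (A + h) := by
    have t1 : (0 : ℝ) ≤ (2 * C₁ + 2 * Ca + 2) * (A + h) := by positivity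
    have t2 : (K1 : ℝ) * A ≤ K1 * (A + h) := mul_le_mul_of_nonneg_left (by linarith) hK10
    have t3 : (m : ℝ) * h ≤ m * (A + h) := mul_le_mul_of_nonneg_left (by linarith) hm0
    rw [hCc]
    nlinarith
  have hAA : A ≤ Cc * (A + h) := by
    have t1 : 0 ≤ K1 * A := mul_nonneg hK10 hA
    have t2 : 0 ≤ m * h := mul_nonneg hm0 hh
    linarith
  have b1 := hexp (A - Q - (m + 1) * s) (-Q - (m + 1) * s) (by linarith)
  have b2 := hexp (K1 * A + A + m * h - Q - (m + 1) * s) (-Q - (m + 1) * s) (by linarith)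
  have b3 := hexp (A - p + m * (v N - s)) (-p + m * (v N - s)) (by linarith)
  have b4 := hexp (K1 * A + A - Q + m * (v N - s) - y) (-Q + m * (v N - s) - y) (by
    have t2 : 0 ≤ m * h := mul_nonneg hm0 hh
    linarith)
  have hx0 := Real.exp_pos (Cc * (A + h))
  have hx1 := Real.exp_pos (-Q - (m + 1) * s)
  have hx2 := Real.exp_pos (-p + m * (v N - s))
  have hx3 := Real.exp_pos (-Q + m * (v N - s) - y)
  have hC1 : C₁ + Ca ≤ Cc := by rw [hCc]; linarith
  calc _ ≤ C₁ * (Real.exp (Cc * (A + h)) * Real.exp (-Q - (m + 1) * s)) +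
        Ca * (Real.exp (Cc * (A + h)) * Real.exp (-Q - (m + 1) * s)) +
        (C₁ * (Real.exp (Cc * (A + h)) * Real.exp (-p + m * (v N - s))) +
          Ca * (Real.exp (Cc * (A + h)) * Real.exp (-Q + m * (v N - s) - y))) := by
        gcongr
    _ = Real.exp (Cc * (A + h)) * ((C₁ + Ca) * Real.exp (-Q - (m + 1) * s) +
        C₁ * Real.exp (-p + m * (v N - s)) + Ca * Real.exp (-Q + m * (v N - s) - y)) := by ring
    _ ≤ Real.exp (Cc * (A + h)) * (Cc * Real.exp (-Q - (m + 1) * s) +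
        Cc * Real.exp (-p + m * (v N - s)) + Cc * Real.exp (-Q + m * (v N - s) - y)) := by
        have hCa0 : 0 < Ca := by linarith
        gcongr
        · linarith
        · linarith
    _ = _ := by ring

end Pool.TRM
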