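import Pool.Agent.H31.STAT.Trc1

/-!
# Truncation of a two-sided label to a degree, over recentred boxes: pure part

The boxes of the levels are the boxes of one chart (of the ball) whose sides are divided by the
same factor `exp (v k)`, the time included on the side of the point (`gs`), not on the side of the
line (`gt`). `tyl`: the part of degree at most `m` in the natural coordinates of the chart of the
point. `dgv`: the part of degree at most `m` in the directions of the positions, in the natural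
coordinates of the chart of the line.

`trm_pure`: from labels `(G₀, H₀)` of the level `0` and `(G₁, H N)` of the level `N` the pair
`G₀ + tyl (G₁ - G₀)`, `H₀ + dgv (H N - H₀)` is a label of all levels between.
-/

set_option autoImplicit false

namespace Pool.TRM

open Finset MvPolynomial
open Pool.STAT
open Pool.TRC31 (BxE nue zet d1)

/-! ### Natural coordinates -/

/-- The natural coordinates of the chart `Φ` as polynomials. -/
noncomputable def nco (g : ℕ → ℝ) (Φ : ℕ → PN) (i : ℕ) : PN := C (Real.exp (g i)) * (X i - Φ i)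

/-- The weights of the directions of the positions. -/
def dY : ℕ → ℕ := fun i => if i = 0 then 0 else 1

/-- The sides of the ball with the radius divided by `exp v`. -/
noncomputable def gs (v : ℝ) (g : ℕ → ℝ) (i : ℕ) : ℝ := g i + v

/-- The sides of the tube with the radius divided by `exp v`. -/
noncomputable def gt (v : ℝ) (g : ℕ → ℝ) (i : ℕ) : ℝ := if i = 0 then g 0 else g i + v

/-- The part of degree `≤ m` in the natural coordinates of `Φ`, for the weights `d`. -/
noncomputable def tyw (d : ℕ → ℕ) (m : ℕ) (g : ℕ → ℝ) (Φ : ℕ → PN) (F : PN) : PN :=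
  bind₁ (nco g Φ) (trw d (m + 1) (bind₁ (nue g Φ) F))

variable {g : ℕ → ℝ} {Φ : ℕ → PN}

theorem eval_nco (b : ℕ → ℝ) (i : ℕ) :
    eval b (nco g Φ i) = Real.exp (g i) * (b i - eval b (Φ i)) := by
  unfold nco
  rw [map_mul, eval_C, map_sub, eval_X]

/-- From the natural coordinates back. -/
theorem nue_nco (hΦ : TriN Φ) (b : ℕ → ℝ) (i : ℕ) :
    eval (fun j => eval b (nco g Φ j)) (nue g Φ i) = b i := by
  induction i using Nat.strong_induction_on with
  | _ i ih =>
    rw [TRC31.nue_eq hΦ, map_add, TRC31.eval_bind', map_mul, eval_C, eval_X, eval_nco,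
      SYS35.eval_congr (hΦ i) ih, ← mul_assoc, ← Real.exp_add, neg_add_cancel, Real.exp_zero,
      one_mul]
    ring

/-- The natural coordinates of the natural coordinates. -/
theorem nco_nue (hΦ : TriN Φ) (i : ℕ) : bind₁ (nue g Φ) (nco g Φ i) = X i := by
  have h : nue g Φ i - bind₁ (nue g Φ) (Φ i) = C (Real.exp (-g i)) * X i :=
    sub_eq_iff_eq_add'.2 (TRC31.nue_eq hΦ i)
  have h2 : bind₁ (nue g Φ) (nco g Φ i) =
      C (Real.exp (g i)) * (nue g Φ i - bind₁ (nue g Φ) (Φ i)) := by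
    unfold nco
    rw [map_mul, bind₁_C_right, map_sub, bind₁_X_right]
  rw [h2, h, ← mul_assoc, ← C_mul, ← Real.exp_add, add_neg_cancel, Real.exp_zero, C_1, one_mul]

theorem tyw_nue (hΦ : TriN Φ) (d : ℕ → ℕ) (m : ℕ) (F : PN) :
    bind₁ (nue g Φ) (tyw d m g Φ F) = trw d (m + 1) (bind₁ (nue g Φ) F) := by
  have h : (fun i => bind₁ (nue g Φ) (nco g Φ i)) = fun i => (X i : PN) := by
    funext i
    exact nco_nue hΦ i
  have h2 : ∀ F : PN, bind₁ (fun i => bind₁ (nue g Φ) (nco g Φ i)) F = F := by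
    intro F
    rw [h]
    exact AlgHom.congr_fun bind₁_X_left F
  unfold tyw
  rw [bind₁_bind₁]
  exact h2 _

theorem trw_add' (d : ℕ → ℕ) (M : ℕ) (F G : PN) : trw d M (F + G) = trw d M F + trw d M G := by
  ext κ
  rw [coeff_add, SYS35.coeff_trw, SYS35.coeff_trw, SYS35.coeff_trw, coeff_add]
  split_ifs <;> ring

theorem trw_sub' (d : ℕ → ℕ) (M : ℕ) (F G : PN) : trw d M (F - G) = trw d M F - trw d M G := by
  ext κ
  rw [coeff_sub, SYS35.coeff_trw, SYS35.coeff_trw, SYS35.coeff_trw, coeff_sub]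
  split_ifs <;> ring

theorem trw_zero' (d : ℕ → ℕ) (M : ℕ) : trw d M (0 : PN) = 0 := by
  have h := trw_sub' d M (0 : PN) 0
  rw [sub_self, sub_self] at h
  exact h

theorem trw_sum' {ι : Type*} (d : ℕ → ℕ) (M : ℕ) (s : Finset ι) (F : ι → PN) :
    trw d M (∑ i ∈ s, F i) = ∑ i ∈ s, trw d M (F i) := by
  classical
  induction s using Finset.induction_on with
  | empty => simp [trw_zero']
  | insert a s ha ih => rw [sum_insert ha, sum_insert ha, trw_add', ih]

/-- Values of a polynomial on a box, from the norm in natural coordinates. -/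
theorem val_le (hΦ : TriN Φ) {d : ℕ → ℕ} {F : PN} {n : ℕ} {ρ : ℝ}
    (hF : F.vars ⊆ range n) {b : ℕ → ℝ}
    (hb : ∀ i < n, |b i - eval b (Φ i)| ≤ ρ ^ d i * Real.exp (-g i)) :
    |eval b F| ≤ nrm d ρ (bind₁ (nue g Φ) F) := by
  have h1 : eval b F = eval (fun j => eval b (nco g Φ j)) (bind₁ (nue g Φ) F) := by
    rw [TRC31.eval_bind']
    congr 1
    congr 1
    funext i
    exact (nue_nco hΦ b i).symm
  rw [h1]
  refine NRM.abs_eval_le d _ _ fun i hi => ?_
  have hi' : i < n := mem_range.1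
    (SYS35.vars_bind hF (fun i _ => TRC31.nue_vars hΦ i) hi)
  rw [eval_nco, abs_mul, abs_of_pos (Real.exp_pos _)]
  have h2 := mul_le_mul_of_nonneg_left (hb i hi') (Real.exp_pos (g i)).le
  refine h2.trans (le_of_eq ?_)
  rw [mul_comm (ρ ^ d i), ← mul_assoc, ← Real.exp_add, add_neg_cancel, Real.exp_zero, one_mul]

/-- The norm in natural coordinates, from the values on a box. -/
theorem nrm_le (n K K' : ℕ) : ∃ C : ℝ, 1 ≤ C ∧ ∀ (Φ : ℕ → PN) (g : ℕ → ℝ) (d : ℕ → ℕ) (ρ : ℝ)
    (F : PN) (s : ℝ), TriN Φ → (∀ i < n, (Φ i).totalDegree ≤ K) → 0 < ρ → F.vars ⊆ range n →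
    F.totalDegree ≤ K' →
    (∀ b : ℕ → ℝ, (∀ i < n, |b i - eval b (Φ i)| ≤ ρ ^ d i * Real.exp (-g i)) → |eval b F| ≤ s) →
    nrm d ρ (bind₁ (nue g Φ) F) ≤ C * s := by
  obtain ⟨C, hC1, hC⟩ := SYS35.nrm_of_sup n (K' * (K + 1) ^ n)
  refine ⟨C, hC1, fun Φ g d ρ F s hΦ hK hρ hv hd hs => ?_⟩
  refine hC d ρ _ s hρ (SYS35.vars_bind hv fun i _ => TRC31.nue_vars hΦ i)
    (SYS35.totalDegree_bind hv hd fun i hi => (TRC31.nue_deg hΦ hK i hi).trans
      (Nat.pow_le_pow_right (by omega) (by omega))) fun η hη => ?_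
  rw [TRC31.eval_bind']
  refine hs _ fun i hi => ?_
  have h : eval η (nue g Φ i) = eval (fun i => eval η (nue g Φ i)) (Φ i) +
      Real.exp (-g i) * η i := by
    conv_lhs => rw [TRC31.nue_eq hΦ]
    rw [map_add, TRC31.eval_bind', map_mul, eval_C, eval_X]
  show |eval η (nue g Φ i) - eval (fun i => eval η (nue g Φ i)) (Φ i)| ≤ _
  rw [h, add_sub_cancel_left, abs_mul, abs_of_pos (Real.exp_pos _), mul_comm]
  exact mul_le_mul_of_nonneg_right (hη i hi) (Real.exp_pos _).le

theorem nco_vars (hΦ : TriN Φ) (i : ℕ) : (nco g Φ i).vars ⊆ range (i + 1) := by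
  classical
  unfold nco
  refine (vars_mul _ _).trans (Finset.union_subset ?_ ?_)
  · rw [vars_C]
    exact empty_subset _
  · refine (vars_sub_subset _).trans (Finset.union_subset ?_ ?_)
    · rw [vars_X]
      intro j hj
      rw [Finset.mem_singleton.1 hj]
      exact mem_range.2 (Nat.lt_succ_self i)
    · exact (hΦ i).trans (range_mono (Nat.le_succ i))

theorem nco_deg {K : ℕ} {i : ℕ} (hK : (Φ i).totalDegree ≤ K) :
    (nco g Φ i).totalDegree ≤ K + 1 := by
  unfold nco
  refine (totalDegree_mul _ _).trans ?_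
  rw [totalDegree_C, zero_add]
  refine (totalDegree_sub _ _).trans (max_le ?_ (hK.trans (Nat.le_succ K)))
  rw [totalDegree_X]
  omega

theorem tyw_vars (hΦ : TriN Φ) {d : ℕ → ℕ} {m n : ℕ} {F : PN} (hF : F.vars ⊆ range n) :
    (tyw d m g Φ F).vars ⊆ range n :=
  SYS35.vars_bind ((SYS35.vars_trw _ _ _).trans
    (SYS35.vars_bind hF fun i _ => TRC31.nue_vars hΦ i)) fun i _ => nco_vars hΦ i

theorem deg_trw (d : ℕ → ℕ) (r : ℕ) (F : PN) : (trw d r F).totalDegree ≤ F.totalDegree :=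
  Finset.sup_mono (SYS35.support_trw d r F)

theorem tyw_deg (hΦ : TriN Φ) {d : ℕ → ℕ} {m n K K' : ℕ} {F : PN} (hF : F.vars ⊆ range n)
    (hK : ∀ i < n, (Φ i).totalDegree ≤ K) (hd : F.totalDegree ≤ K') :
    (tyw d m g Φ F).totalDegree ≤ K' * (K + 1) ^ n * (K + 1) :=
  SYS35.totalDegree_bind ((SYS35.vars_trw _ _ _).trans
    (SYS35.vars_bind hF fun i _ => TRC31.nue_vars hΦ i))
    ((deg_trw _ _ _).trans (SYS35.totalDegree_bind hF hd fun i hi =>
      (TRC31.nue_deg hΦ hK i hi).trans (Nat.pow_le_pow_right (by omega) (by omega))))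
    fun i hi => nco_deg (hK i hi)

/-- The centre. -/
theorem nue_ctr (hΦ : TriN Φ) {c : ℕ → ℝ} {n : ℕ} (hc : ∀ i < n, eval c (Φ i) = c i) :
    ∀ i < n, eval (0 : ℕ → ℝ) (nue g Φ i) = c i := by
  intro i
  induction i using Nat.strong_induction_on with
  | _ i ih =>
    intro hi
    rw [TRC31.nue_eq hΦ, map_add, TRC31.eval_bind', map_mul, eval_X, Pi.zero_apply, mul_zero,
      add_zero, ← hc i hi]
    exact SYS35.eval_congr (hΦ i) fun j hj => ih j hj (hj.trans hi)

theorem gew_add'' (d : ℕ → ℕ) (M : ℕ) (F G : PN) : gew d M (F - G) = gew d M F - gew d M G := by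
  unfold gew
  rw [trw_sub']
  ring

theorem trw_one (F : PN) : trw d1 1 F = C (coeff 0 F) := by
  classical
  ext κ
  rw [SYS35.coeff_trw, coeff_C]
  by_cases h : κ = 0
  · subst h
    rw [map_zero, if_pos one_pos, if_pos rfl]
  · rw [if_neg (Ne.symm h), if_neg]
    have h1 : Finsupp.weight d1 κ ≠ 0 := fun h2 => h (TRC31.weight_eq_zero.1 h2)
    omega

/-- The norm at a smaller radius: the value at the centre and the rest. -/
theorem nrm_ctr {F : PN} {r x y : ℝ} (hr : 0 < r) (hr1 : r ≤ 1) (hx : |coeff 0 F| ≤ x)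
    (hy : nrm d1 1 F ≤ y) : nrm d1 r F ≤ x + r * y := by
  have h : F = trw d1 1 F + gew d1 1 F := by
    unfold gew
    ring
  rw [h]
  refine (NRM.nrm_add d1 hr _ _).trans (add_le_add ?_ ?_)
  · rw [trw_one, NRM.nrm_C]
    exact hx
  · have h1 := NRM.nrm_gew_scale d1 hr 1 F 1 hr1
    rw [div_one, pow_one] at h1
    exact h1.trans (mul_le_mul_of_nonneg_left hy hr.le)

/-- The chart of the line in the natural coordinates of the chart of the point. -/
theorem zet_eq {ΦG ΦH : ℕ → PN} (hΦ : TriN ΦG) (g g' : ℕ → ℝ) (i : ℕ) :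
    zet g' ΦH (nue g ΦG) i = C (Real.exp (g' i - g i)) * X i +
      C (Real.exp (g' i)) * bind₁ (nue g ΦG) (ΦG i - ΦH i) := by
  have h : nue g ΦG i - bind₁ (nue g ΦG) (ΦG i) = C (Real.exp (-g i)) * X i :=
    sub_eq_iff_eq_add'.2 (TRC31.nue_eq hΦ i)
  have h2 : nue g ΦG i - bind₁ (nue g ΦG) (ΦH i) = C (Real.exp (-g i)) * X i +
      bind₁ (nue g ΦG) (ΦG i - ΦH i) := by
    rw [← h, map_sub]
    abel
  unfold zet
  rw [h2, mul_add, ← mul_assoc, ← C_mul, ← Real.exp_add, ← sub_eq_add_neg]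

end Pool.TRM
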